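import Pool.Agent.H94.PP.Defs

/-!
helper85 (project MP_28250c_PP, corollaries): CNFs for matrix identities over `Z/q`. The value of every element of `Z/q` is given by `q`
Boolean variables.
-/

set_option autoImplicit false
open Finset

namespace PPh

open ACpFrege

/-- The variable number `ν` (with values in `Z/q`) has the value `c`: the Boolean variable `x_(q ν + c)`. -/
def isv (q ν c : ℕ) : Lit := (ν * q + c, true)

/-- The variable number `ν` does not have the value `c`. -/
def nov (q ν c : ℕ) : Lit := (ν * q + c, false)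

/-- The variable number `ν` has exactly one value. -/
def exone (q ν : ℕ) : CNF :=
  [(List.range q).map (isv q ν)] ++ (List.range q).flatMap fun c' => (List.range c').map fun c => [nov q ν c, nov q ν c']

/-- `s' = s + a b` in `Z/q`, where `s, a, b, s'` are numbers of variables. -/
def stepq (q s a b s' : ℕ) : CNF :=
  (List.range q).flatMap fun u => (List.range q).flatMap fun x => (List.range q).flatMap fun y =>
    ((List.range q).filter fun w => w ≠ (u + x * y) % q).map fun w => [nov q s u, nov q a x, nov q b y, nov q s' w]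

/-- The variables `s 0, .., s r` are the partial sums of `∑_(k < r) a k * b k` in `Z/q`, and the whole sum is `v`. -/
def dotq (q r : ℕ) (s a b : ℕ → ℕ) (v : ℕ) : CNF :=
  [[isv q (s 0) 0], [isv q (s r) v]] ++ (List.range r).flatMap fun k => stepq q (s k) (a k) (b k) (s (k + 1))

/-- The rank principle: `A B = 1` in `Z/q` for an `m × r` matrix `A` (entries: variables `i r + k`) and an `r × m` matrix `B` (entries:
`m r + k m + j`), written with the partial sums of all entries of the product. Unsatisfiable for `r < m`. -/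
def rankp (q m r : ℕ) : CNF :=
  (List.range (2 * m * r + m * m * (r + 1))).flatMap (exone q) ++
    (List.range m).flatMap fun i => (List.range m).flatMap fun j =>
      dotq q r (fun k => 2 * m * r + (i * m + j) * (r + 1) + k) (fun k => i * r + k) (fun k => m * r + k * m + j)
        (if i = j then 1 else 0)

/-- The inversion principle: `A B = 1` in `Z/q` for `N × N` matrices `A`, `B`, but the last diagonal entry of `B A` is 0. Unsatisfiable
for `1 ≤ N`, since `A B = 1` implies `B A = 1`. -/
def invp (q N : ℕ) : CNF :=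
  rankp q N N ++ ((List.range (N + 1)).flatMap (fun k => exone q (2 * N * N + N * N * (N + 1) + k)) ++
    dotq q N (fun k => 2 * N * N + N * N * (N + 1) + k) (fun k => N * N + (N - 1) * N + k) (fun k => k * N + (N - 1)) 0)

section

variable {K : Type} [Field K] {E : Type} [AddCommGroup E] [Module K E] {n : ℕ}

/-- The graded product of the complements of the literals. -/
noncomputable def Gm.nprod (g : Gm K E n) (l : List (Fin n × Bool)) : E →ₗ[K] E :=
  (l.map fun i => if i.2 then g.J - g.X i.1 else g.X i.1).prod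

/-- The clause `C` holds in the graded module: it has at most `w` literals and the graded product of their complements vanishes, or it
is a set of positive literals whose sum is `J`. -/
def Gm.Clw (g : Gm K E n) (w : ℕ) (C : List Lit) : Prop :=
  (∃ l : List (Fin n × Bool), l.length ≤ w ∧ C = l.map (fun i => (i.1.1, i.2)) ∧ ∀ m, g.nprod l m = 0) ∨
    ∃ l : List (Fin n), l.Nodup ∧ C = l.map (fun i => (i.1, true)) ∧ ∀ m, (l.map fun i => g.X i m).sum = g.J m

end

/-- `HasGm` with clauses of at most `w` literals which hold in the sense of `Clw`. -/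
def HasGmW (w p n : ℕ) [Fact p.Prime] (F : CNF) (L A R del : ℕ) : Prop :=
  ∃ (E : Type) (_ : AddCommGroup E) (_ : Module (ZMod p) E) (_ : FiniteDimensional (ZMod p) E) (g : Gm (ZMod p) E n),
    16 * L ^ 2 * del ^ 2 < Module.finrank (ZMod p) (g.M 0) ∧
    (∀ j, j ≤ L → Module.finrank (ZMod p) (g.M j) ≤ A * Module.finrank (ZMod p) (g.M 0)) ∧
    (∀ j, j < L → R * Module.finrank (ZMod p) ↥(g.M j ⊓ LinearMap.ker g.J) ≤ Module.finrank (ZMod p) (g.M 0)) ∧
    (∀ a, a ≤ L → Module.finrank (ZMod p) (g.Op a) ≤ del) ∧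
    ∀ C ∈ F, g.Clw w C

/-- Theorem G for `HasGmW`. -/
def OutGW (p w : ℕ) [Fact p.Prime] : Prop :=
  ∀ S : List (Rule p), (∀ R ∈ S, R.Sound) → ∃ C : ℕ, ∀ (d n : ℕ) (F : CNF) (L A R del N t : ℕ), HasGmW w p n F L A R del →
    1 ≤ t → C * (p * t) ^ (d + 2) ≤ L → C * N * A * 2 ^ t < 3 ^ t → C * N ^ 2 * L ≤ R → 16 * L * del ≤ R →
    ∀ π : List (Fm p), Refutes S d F π → N < psize π

/-- The rank principle is exponentially hard for bounded-depth Frege systems with `MOD_p`, over every ring `Z/q`. -/
def StatementRank : Prop :=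
  ∀ p : ℕ, p.Prime → ∃ c > (0 : ℝ), ∀ S : List (Rule p), (∀ R ∈ S, R.Sound) → ∃ n₀ : ℕ, ∀ n ≥ n₀, ∀ d : ℕ,
    Real.log n ^ (d + 1) ≤ (n : ℝ) ^ c → ∀ m q : ℕ, n < m → (m : ℝ) ≤ n + (n : ℝ) ^ c → 2 ≤ q →
      ∀ π : List (Fm p), Refutes S d (rankp q m n) π → (2 : ℝ) ^ ((n : ℝ) ^ (c / (d + 1))) ≤ psize π

/-- The inversion principle `A B = 1 → B A = 1` is exponentially hard for bounded-depth Frege systems with `MOD_p`, over every ring
`Z/q` (also `q = p`). -/
def StatementInv : Prop :=
  ∀ p : ℕ, p.Prime → ∃ c > (0 : ℝ), ∀ S : List (Rule p), (∀ R ∈ S, R.Sound) → ∃ n₀ : ℕ, ∀ n ≥ n₀, ∀ d : ℕ,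
    Real.log n ^ (d + 1) ≤ (n : ℝ) ^ c → ∀ q : ℕ, 2 ≤ q →
      ∀ π : List (Fm p), Refutes S d (invp q n) π → (2 : ℝ) ^ ((n : ℝ) ^ (c / (d + 1))) ≤ psize π

end PPh
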