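import Pool.Agent.H85.PC.Defs

/-!
helper85 (project MP_28250c_PP, corollaries): the rank principle (`r < m`) and the inversion principle are unsatisfiable.
-/

set_option autoImplicit false
open Finset

namespace PPh

open ACpFrege

/-- The assignment `a` satisfies the CNF `F`. -/
def SatBy (a : ℕ → Bool) (F : CNF) : Prop := ∀ C ∈ F, ∃ l ∈ C, a l.1 = l.2

theorem unsat_of {F : CNF} (h : ∀ a, ¬ SatBy a F) : F.Unsat := by
  intro a
  by_contra hcon
  push Not at hcon
  exact h a fun C hC => hcon C hC

/-- A variable over `Z/q` has the value `c`. -/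
def Val (a : ℕ → Bool) (q ν c : ℕ) : Prop := c < q ∧ a (ν * q + c) = true ∧ ∀ c' < q, a (ν * q + c') = true → c' = c

theorem val_of {a : ℕ → Bool} {q ν : ℕ} (h : SatBy a (exone q ν)) : ∃ c, Val a q ν c := by
  unfold exone at h
  obtain ⟨l, hl, hal⟩ := h _ (List.mem_append_left _ (List.mem_singleton_self _))
  obtain ⟨c, hc, rfl⟩ := List.mem_map.1 hl
  rw [List.mem_range] at hc
  refine ⟨c, hc, hal, fun c' hc' hc'' => ?_⟩
  by_contra hne
  have key : ∀ c c', c < c' → c' < q → a (ν * q + c) = true → a (ν * q + c') = true → False := by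
    intro c c' h1 h2 h3 h4
    obtain ⟨l, hl, hal⟩ := h [nov q ν c, nov q ν c'] (List.mem_append_right _ (List.mem_flatMap.2 ⟨c', List.mem_range.2 h2,
      List.mem_map.2 ⟨c, List.mem_range.2 h1, rfl⟩⟩))
    rcases List.mem_cons.1 hl with rfl | hl
    · simp only [nov] at hal
      rw [h3] at hal
      exact absurd hal (by simp)
    · rw [List.mem_singleton] at hl
      subst hl
      simp only [nov] at hal
      rw [h4] at hal
      exact absurd hal (by simp)
  rcases lt_or_gt_of_ne hne with h1 | h1
  · exact key c' c h1 hc hc'' hal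
  · exact key c c' h1 hc' hal hc''

theorem unit_val {a : ℕ → Bool} {q ν c v : ℕ} (h : Val a q ν c) (hv : v < q) (hs : SatBy a [[isv q ν v]]) : c = v := by
  obtain ⟨l, hl, hal⟩ := hs _ (List.mem_singleton_self _)
  rw [List.mem_singleton] at hl
  subst hl
  exact (h.2.2 v hv hal).symm

theorem step_val {a : ℕ → Bool} {q s x y s' cs cx cy cs' : ℕ} (hs : Val a q s cs) (hx : Val a q x cx) (hy : Val a q y cy)
    (hs' : Val a q s' cs') (h : SatBy a (stepq q s x y s')) : cs' = (cs + cx * cy) % q := by
  by_contra hne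
  obtain ⟨l, hl, hal⟩ := h [nov q s cs, nov q x cx, nov q y cy, nov q s' cs'] (by
    unfold stepq
    simp only [List.mem_flatMap, List.mem_map, List.mem_filter, List.mem_range, decide_eq_true_eq]
    exact ⟨cs, hs.1, cx, hx.1, cy, hy.1, cs', ⟨hs'.1, hne⟩, rfl⟩)
  simp only [List.mem_cons, List.not_mem_nil, or_false] at hl
  rcases hl with rfl | rfl | rfl | rfl
  · have := hs.2.1; simp only [nov] at hal; rw [this] at hal; exact absurd hal (by simp)
  · have := hx.2.1; simp only [nov] at hal; rw [this] at hal; exact absurd hal (by simp)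
  · have := hy.2.1; simp only [nov] at hal; rw [this] at hal; exact absurd hal (by simp)
  · have := hs'.2.1; simp only [nov] at hal; rw [this] at hal; exact absurd hal (by simp)

theorem dot_val {a : ℕ → Bool} {q r v : ℕ} {s x y : ℕ → ℕ} {f : ℕ → ℕ} (hf : ∀ k ≤ r, Val a q (s k) (f (s k)))
    (hfx : ∀ k < r, Val a q (x k) (f (x k))) (hfy : ∀ k < r, Val a q (y k) (f (y k))) (hv : v < q)
    (h : SatBy a (dotq q r s x y v)) : ∑ k ∈ range r, (f (x k) : ZMod q) * f (y k) = v := by
  have hq : 0 < q := by omega
  have h0 : f (s 0) = 0 := unit_val (hf 0 (Nat.zero_le _)) hq fun C hC => h C (by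
    rw [List.mem_singleton] at hC
    subst hC
    exact List.mem_append_left _ (by simp))
  have h1 : f (s r) = v := unit_val (hf r le_rfl) hv fun C hC => h C (by
    rw [List.mem_singleton] at hC
    subst hC
    exact List.mem_append_left _ (by simp))
  have h2 : ∀ k ≤ r, (f (s k) : ZMod q) = ∑ k' ∈ range k, (f (x k') : ZMod q) * f (y k') := by
    intro k
    induction k with
    | zero => intro _; simp [h0]
    | succ k ih =>
      intro hk
      rw [Finset.sum_range_succ, ← ih (by omega)]
      have h3 := step_val (hf k (by omega)) (hfx k (by omega)) (hfy k (by omega)) (hf (k + 1) hk) fun C hC => h C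
        (List.mem_append_right _ (List.mem_flatMap.2 ⟨k, List.mem_range.2 (by omega), hC⟩))
      rw [h3, ZMod.natCast_mod]
      push_cast
      ring
  rw [← h2 r le_rfl, h1]

theorem idx_lt' {q ν V c : ℕ} (h : ν < V) (hc : c < q) : ν * q + c < V * q := by
  have : (ν + 1) * q ≤ V * q := Nat.mul_le_mul_right _ h
  rw [Nat.add_mul, one_mul] at this
  omega

/-- The matrices given by a satisfying assignment. -/
theorem rank_val {a : ℕ → Bool} {q m r : ℕ} (hq : 2 ≤ q) (h : SatBy a (rankp q m r)) :
    ∃ f : ℕ → ℕ, (∀ ν < 2 * m * r + m * m * (r + 1), Val a q ν (f ν)) ∧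
      ∀ i < m, ∀ j < m, ∑ k ∈ range r, (f (i * r + k) : ZMod q) * f (m * r + k * m + j) = if i = j then 1 else 0 := by
  have hval : ∀ ν < 2 * m * r + m * m * (r + 1), ∃ c, Val a q ν c := fun ν hν =>
    val_of fun C hC => h C (List.mem_append_left _ (List.mem_flatMap.2 ⟨ν, List.mem_range.2 hν, hC⟩))
  classical
  let f : ℕ → ℕ := fun ν => if hν : ν < 2 * m * r + m * m * (r + 1) then (hval ν hν).choose else 0
  have hf : ∀ ν < 2 * m * r + m * m * (r + 1), Val a q ν (f ν) := by
    intro ν hν
    have : f ν = (hval ν hν).choose := dif_pos hν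
    rw [this]
    exact (hval ν hν).choose_spec
  refine ⟨f, hf, fun i hi j hj => ?_⟩
  have h4 : 2 * m * r = m * r + m * r := by ring
  have h3 : r * m = m * r := mul_comm _ _
  have h5 := dot_val (a := a) (q := q) (r := r) (v := if i = j then 1 else 0)
    (s := fun k => 2 * m * r + (i * m + j) * (r + 1) + k) (x := fun k => i * r + k) (y := fun k => m * r + k * m + j) (f := f)
    (fun k hk => hf _ (by
      have h0 : (i * m + j) * (r + 1) + k < m * m * (r + 1) := idx_lt' (idx_lt' hi hj) (by omega)
      omega))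
    (fun k hk => hf _ (by have := idx_lt' hi hk; omega)) (fun k hk => hf _ (by have := idx_lt' hk hj; omega))
    (by split_ifs <;> omega) (fun C hC => h C (List.mem_append_right _ (List.mem_flatMap.2 ⟨i, List.mem_range.2 hi,
      List.mem_flatMap.2 ⟨j, List.mem_range.2 hj, hC⟩⟩)))
  rw [h5]
  split_ifs <;> simp

/-- The rank principle is unsatisfiable. -/
theorem rankp_unsat {q m r : ℕ} (hq : 2 ≤ q) (hm : r < m) : (rankp q m r).Unsat := by
  refine unsat_of fun a h => ?_
  obtain ⟨f, -, hf⟩ := rank_val hq h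
  haveI : Fact (1 < q) := ⟨by omega⟩
  let A : Matrix (Fin m) (Fin r) (ZMod q) := fun i k => f (i * r + k)
  let B : Matrix (Fin r) (Fin m) (ZMod q) := fun k j => f (m * r + k * m + j)
  have hAB : A * B = 1 := by
    ext i j
    rw [Matrix.mul_apply, Matrix.one_apply]
    have := hf i i.2 j j.2
    rw [Finset.sum_range] at this
    simp only [A, B]
    rw [this]
    simp [Fin.ext_iff]
  have hinj : Function.Injective (Matrix.mulVecLin B) := by
    intro v w hvw
    have h1 : A.mulVec (B.mulVec v) = A.mulVec (B.mulVec w) := congrArg A.mulVec hvw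
    rwa [Matrix.mulVec_mulVec, Matrix.mulVec_mulVec, hAB, Matrix.one_mulVec, Matrix.one_mulVec] at h1
  have := card_le_of_injective (ZMod q) (Matrix.mulVecLin B) hinj
  simp only [Fintype.card_fin] at this
  omega

/-- The inversion principle is unsatisfiable. -/
theorem invp_unsat {q N : ℕ} (hq : 2 ≤ q) (hN : 1 ≤ N) : (invp q N).Unsat := by
  refine unsat_of fun a h => ?_
  have hr : SatBy a (rankp q N N) := fun C hC => h C (List.mem_append_left _ hC)
  obtain ⟨f, hv, hf⟩ := rank_val hq hr
  haveI : Fact (1 < q) := ⟨by omega⟩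
  have hval : ∀ k < N + 1, ∃ c, Val a q (2 * N * N + N * N * (N + 1) + k) c := fun k hk =>
    val_of fun C hC => h C (List.mem_append_right _ (List.mem_append_left _ (List.mem_flatMap.2 ⟨k, List.mem_range.2 hk, hC⟩)))
  classical
  let f' : ℕ → ℕ := fun ν => if ν < 2 * N * N + N * N * (N + 1) then f ν else
    if hν : ν - (2 * N * N + N * N * (N + 1)) < N + 1 then (hval _ hν).choose else 0
  have hf1 : ∀ ν < 2 * N * N + N * N * (N + 1), f' ν = f ν := fun ν hν => if_pos hν
  have hf2 : ∀ k < N + 1, Val a q (2 * N * N + N * N * (N + 1) + k) (f' (2 * N * N + N * N * (N + 1) + k)) := by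
    intro k hk
    have h1 : 2 * N * N + N * N * (N + 1) + k - (2 * N * N + N * N * (N + 1)) = k := by omega
    have h2 : f' (2 * N * N + N * N * (N + 1) + k) = (hval k hk).choose := by
      simp only [f']
      rw [if_neg (by omega), dif_pos (by omega)]
      congr!
    rw [h2]
    exact (hval k hk).choose_spec
  have h4 : 2 * N * N = N * N + N * N := by ring
  have hlast : N - 1 < N := by omega
  have h5 := dot_val (a := a) (q := q) (r := N) (v := 0)
    (s := fun k => 2 * N * N + N * N * (N + 1) + k) (x := fun k => N * N + (N - 1) * N + k) (y := fun k => k * N + (N - 1)) (f := f')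
    (fun k hk => hf2 k (by omega))
    (fun k hk => by
      have := idx_lt' hlast hk
      rw [hf1 _ (by omega)]
      exact hv _ (by omega))
    (fun k hk => by
      have := idx_lt' hk hlast
      rw [hf1 _ (by omega)]
      exact hv _ (by omega))
    (by omega) (fun C hC => h C (List.mem_append_right _ (List.mem_append_right _ hC)))
  let A : Matrix (Fin N) (Fin N) (ZMod q) := fun i k => f (i * N + k)
  let B : Matrix (Fin N) (Fin N) (ZMod q) := fun k j => f (N * N + k * N + j)
  have hAB : A * B = 1 := by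
    ext i j
    rw [Matrix.mul_apply, Matrix.one_apply]
    have := hf i i.2 j j.2
    rw [Finset.sum_range] at this
    simp only [A, B]
    rw [this]
    simp [Fin.ext_iff]
  have hBA : B * A = 1 := mul_eq_one_comm.1 hAB
  have h6 := congrFun (congrFun hBA ⟨N - 1, hlast⟩) ⟨N - 1, hlast⟩
  rw [Matrix.mul_apply, Matrix.one_apply_eq] at h6
  rw [Finset.sum_range] at h5
  have h7 : ∀ k : Fin N, (f' (N * N + (N - 1) * N + k) : ZMod q) * f' (k * N + (N - 1)) = B ⟨N - 1, hlast⟩ k * A k ⟨N - 1, hlast⟩ := by
    intro k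
    have e1 := idx_lt' hlast k.2
    have e2 := idx_lt' k.2 hlast
    rw [hf1 _ (by omega), hf1 _ (by omega)]
  rw [Finset.sum_congr rfl fun k _ => h7 k, h6] at h5
  simp at h5

end PPh
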