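import Pool.Agent.H85.PC.Mat

/-!
helper85 (project MP_28250c_PP, corollaries): the graded module of the (onto) functional pigeonhole principle gives graded modules for
the rank principle and the inversion principle.
-/

set_option autoImplicit false
open Finset

namespace PPh

open ACpFrege Module

section

variable {K : Type} [Field K] {E : Type} [AddCommGroup E] [Module K E] {n₀ : ℕ}

/-- Operators `x i k` (pigeon `i < M` sits in hole `k < n`) of a graded module for the functional pigeonhole principle. -/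
structure FPM (g : Gm K E n₀) (x : ℕ → ℕ → E →ₗ[K] E) (M n : ℕ) : Prop where
  op : ∀ i k, x i k ∈ g.Op 1
  sq : ∀ i k, x i k * x i k = g.J * x i k
  out : ∀ i k, n ≤ k → x i k = 0
  row : ∀ i < M, ∀ k k', k ≠ k' → x i k * x i k' = 0
  col : ∀ i < M, ∀ i' < M, ∀ k, i ≠ i' → x i k * x i' k = 0
  sum : ∀ i < M, ∑ k ∈ range n, x i k = g.J

/-- The partial sum of a row. -/
def psum (x : ℕ → ℕ → E →ₗ[K] E) (i k : ℕ) : E →ₗ[K] E := ∑ k' ∈ range k, x i k'

variable {g : Gm K E n₀} {x : ℕ → ℕ → E →ₗ[K] E} {M n : ℕ}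

theorem FPM.psum_op (h : FPM g x M n) (i k : ℕ) : psum x i k ∈ g.Op 1 := Submodule.sum_mem _ fun k' _ => h.op i k'

theorem FPM.psum_zero (h : FPM g x M n) {i k k' : ℕ} (hi : i < M) (hk : k ≤ k') : psum x i k * x i k' = 0 := by
  unfold psum
  rw [Finset.sum_mul]
  exact Finset.sum_eq_zero fun a ha => h.row i hi a k' (by have := mem_range.1 ha; omega)

theorem FPM.psum_sq (h : FPM g x M n) {i : ℕ} (k : ℕ) (hi : i < M) : psum x i k * psum x i k = g.J * psum x i k := by
  unfold psum
  rw [Finset.sum_mul_sum, Finset.mul_sum]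
  refine Finset.sum_congr rfl fun a ha => ?_
  rw [Finset.sum_eq_single a (fun b _ hb => h.row i hi a b (Ne.symm hb)) (fun hn => absurd ha hn)]
  exact h.sq i a

theorem FPM.psum_all (h : FPM g x M n) {i r : ℕ} (hi : i < M) (hr : n ≤ r) : psum x i r = g.J := by
  unfold psum
  obtain ⟨t, rfl⟩ := Nat.exists_eq_add_of_le hr
  rw [Finset.sum_range_add, h.sum i hi, Finset.sum_eq_zero fun k _ => h.out i (n + k) (by omega), add_zero]

/-- The values of the variables over `Z/q` of `rankp q m r`. -/
noncomputable def Yr (x : ℕ → ℕ → E →ₗ[K] E) (m r ν : ℕ) : E →ₗ[K] E :=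
  if ν < m * r then x (ν / r) (ν % r)
  else if ν < 2 * m * r then x ((ν - m * r) % m) ((ν - m * r) / m)
  else if ν < 2 * m * r + m * m * (r + 1) then
    if (ν - 2 * m * r) / (r + 1) / m = (ν - 2 * m * r) / (r + 1) % m then
      psum x ((ν - 2 * m * r) / (r + 1) / m) ((ν - 2 * m * r) % (r + 1))
    else 0
  else 0

theorem Yr_op (h : FPM g x M n) (m r ν : ℕ) : Yr x m r ν ∈ g.Op 1 := by
  unfold Yr
  split_ifs
  · exact h.op _ _
  · exact h.op _ _
  · exact h.psum_op _ _
  · exact Submodule.zero_mem _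
  · exact Submodule.zero_mem _

theorem Yr_sq (h : FPM g x M n) {m r : ℕ} (hm : m ≤ M) (ν : ℕ) : Yr x m r ν * Yr x m r ν = g.J * Yr x m r ν := by
  unfold Yr
  split_ifs with h1 h2 h3 h4
  · exact h.sq _ _
  · exact h.sq _ _
  · refine h.psum_sq _ (lt_of_lt_of_le ?_ hm)
    refine Nat.div_lt_of_lt_mul (Nat.div_lt_of_lt_mul ?_)
    rw [mul_comm (r + 1)]
    omega
  · simp
  · simp

theorem Yr_A {m r i k : ℕ} (hi : i < m) (hk : k < r) : Yr x m r (i * r + k) = x i k := by
  unfold Yr
  rw [if_pos (idx_lt hi hk)]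
  have h1 : (i * r + k) / r = i := by
    rw [Nat.add_div_of_dvd_right (Dvd.intro_left i rfl), Nat.mul_div_cancel _ (by omega), Nat.div_eq_of_lt hk, add_zero]
  have h2 : (i * r + k) % r = k := by
    rw [Nat.add_mod, Nat.mul_mod_left, zero_add, Nat.mod_mod, Nat.mod_eq_of_lt hk]
  rw [h1, h2]

theorem Yr_B {m r k j : ℕ} (hj : j < m) (hk : k < r) : Yr x m r (m * r + k * m + j) = x j k := by
  have h0 : k * m + j < r * m := idx_lt hk hj
  have h3 : r * m = m * r := mul_comm _ _
  have h4 : 2 * m * r = m * r + m * r := by ring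
  unfold Yr
  rw [if_neg (by omega), if_pos (by omega)]
  have h5 : m * r + k * m + j - m * r = k * m + j := by omega
  rw [h5]
  have h1 : (k * m + j) / m = k := by
    rw [Nat.add_div_of_dvd_right (Dvd.intro_left k rfl), Nat.mul_div_cancel _ (by omega), Nat.div_eq_of_lt hj, add_zero]
  have h2 : (k * m + j) % m = j := by
    rw [Nat.add_mod, Nat.mul_mod_left, zero_add, Nat.mod_mod, Nat.mod_eq_of_lt hj]
  rw [h1, h2]

theorem Yr_S {m r i j k : ℕ} (hi : i < m) (hj : j < m) (hk : k ≤ r) :
    Yr x m r (2 * m * r + (i * m + j) * (r + 1) + k) = if i = j then psum x i k else 0 := by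
  have h0 : (i * m + j) * (r + 1) + k < m * m * (r + 1) := idx_lt (idx_lt hi hj) (by omega)
  have h4 : 2 * m * r = m * r + m * r := by ring
  unfold Yr
  rw [if_neg (by omega), if_neg (by omega), if_pos (by omega)]
  have h5 : 2 * m * r + (i * m + j) * (r + 1) + k - 2 * m * r = (i * m + j) * (r + 1) + k := by omega
  rw [h5]
  have h1 : ((i * m + j) * (r + 1) + k) / (r + 1) = i * m + j := by
    rw [Nat.add_div_of_dvd_right (Dvd.intro_left _ rfl), Nat.mul_div_cancel _ (by omega), Nat.div_eq_of_lt (by omega), add_zero]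
  have h2 : ((i * m + j) * (r + 1) + k) % (r + 1) = k := by
    rw [Nat.add_mod, Nat.mul_mod_left, zero_add, Nat.mod_mod, Nat.mod_eq_of_lt (by omega)]
  have h3 : (i * m + j) / m = i := by
    rw [Nat.add_div_of_dvd_right (Dvd.intro_left i rfl), Nat.mul_div_cancel _ (by omega), Nat.div_eq_of_lt hj, add_zero]
  have h6 : (i * m + j) % m = j := by
    rw [Nat.add_mod, Nat.mul_mod_left, zero_add, Nat.mod_mod, Nat.mod_eq_of_lt hj]
  rw [h1, h2, h3, h6]

theorem Yr_T {m r ν : ℕ} (h : 2 * m * r + m * m * (r + 1) ≤ ν) : Yr x m r ν = 0 := by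
  have h4 : 2 * m * r = m * r + m * r := by ring
  unfold Yr
  rw [if_neg (by omega), if_neg (by omega), if_neg (by omega)]

/-- The clauses of the rank principle hold. -/
theorem rank_ok (h : FPM g x M n) {q m r V : ℕ} (hq : 2 ≤ q) (hm : m ≤ M) (hr : n ≤ r)
    (hV : 2 * m * r + m * m * (r + 1) ≤ V) :
    ∀ C ∈ rankp q m r, (g.subq q (Yr x m r) (Yr_op h m r) (Yr_sq h hm) (V * q)).Clw 4 C := by
  intro C hC
  unfold rankp at hC
  rcases List.mem_append.1 hC with hC | hC
  · rw [List.mem_flatMap] at hC
    obtain ⟨ν, hν, hC⟩ := hC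
    rw [List.mem_range] at hν
    exact exone_ok g q hq _ _ _ V (by omega) C hC
  · rw [List.mem_flatMap] at hC
    obtain ⟨i, hi, hC⟩ := hC
    rw [List.mem_flatMap] at hC
    obtain ⟨j, hj, hC⟩ := hC
    rw [List.mem_range] at hi hj
    have h4 : 2 * m * r = m * r + m * r := by ring
    have h3 : r * m = m * r := mul_comm _ _
    refine dotq_ok g q hq _ _ _ V (fun k hk => ?_) (fun k hk => ?_) (fun k hk => ?_) ?_ ?_ ?_ (fun k hk => ?_) C hC
    · have h0 : (i * m + j) * (r + 1) + k < m * m * (r + 1) := idx_lt (idx_lt hi hj) (by omega)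
      omega
    · have := idx_lt hi hk
      omega
    · have := idx_lt hk hj
      omega
    · split_ifs <;> omega
    · have h1 := Yr_S (x := x) (r := r) hi hj (Nat.zero_le r)
      rw [h1]
      split_ifs
      · simp [psum]
      · rfl
    · have h1 := Yr_S (x := x) (r := r) hi hj le_rfl
      rw [h1]
      split_ifs
      · rw [h.psum_all (lt_of_lt_of_le hi hm) hr]
        simp [vop]
      · simp [vop]
    · have h1 := Yr_S (x := x) (r := r) hi hj (show k ≤ r by omega)
      have h2 := Yr_S (x := x) (r := r) hi hj (show k + 1 ≤ r by omega)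
      have h5 := Yr_A (x := x) (r := r) hi hk
      have h6 := Yr_B (x := x) (r := r) hj hk
      rw [h1, h2, h5, h6]
      by_cases hij : i = j
      · subst hij
        rw [if_pos rfl, if_pos rfl]
        refine Or.inr ⟨rfl, h.psum_zero (lt_of_lt_of_le hi hm) le_rfl, ?_⟩
        unfold psum
        rw [Finset.sum_range_succ]
      · rw [if_neg hij, if_neg hij]
        exact Or.inl ⟨h.col i (lt_of_lt_of_le hi hm) j (lt_of_lt_of_le hj hm) k hij, rfl⟩

/-- The clauses of the inversion principle hold. -/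
theorem inv_ok (h : FPM g x M n) {q V : ℕ} (hq : 2 ≤ q) (hn : n < M)
    (hV : 2 * M * M + M * M * (M + 1) + (M + 1) ≤ V) :
    ∀ C ∈ invp q M, (g.subq q (Yr x M M) (Yr_op h M M) (Yr_sq h le_rfl) (V * q)).Clw 4 C := by
  intro C hC
  unfold invp at hC
  rcases List.mem_append.1 hC with hC | hC
  · exact rank_ok h hq le_rfl hn.le (by omega) C hC
  rcases List.mem_append.1 hC with hC | hC
  · rw [List.mem_flatMap] at hC
    obtain ⟨ν, hν, hC⟩ := hC
    rw [List.mem_range] at hν
    exact exone_ok g q hq _ _ _ V (by omega) C hC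
  · have h4 : 2 * M * M = M * M + M * M := by ring
    have hT : ∀ k, Yr x M M (2 * M * M + M * M * (M + 1) + k) = 0 := fun k => Yr_T (by omega)
    have hlast : M - 1 < M := by omega
    refine dotq_ok g q hq _ _ _ V (fun k hk => ?_) (fun k hk => ?_) (fun k hk => ?_) (by omega) (hT 0) ?_ (fun k hk => ?_) C hC
    · omega
    · have := idx_lt hlast hk
      omega
    · have := idx_lt hk hlast
      omega
    · rw [hT]
      simp [vop]
    · have h6 := Yr_B (x := x) (r := M) hk hlast
      rw [hT, hT, h6, h.out k (M - 1) (by omega)]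
      exact Or.inl ⟨zero_mul _, rfl⟩

end

/-! ### From the functional pigeonhole principle -/

section

variable {K : Type} [Field K] {E : Type} [AddCommGroup E] [Module K E]

/-- The operator of the variable `x_(i n + k)`. -/
noncomputable def xop {M n : ℕ} (g : Gm K E (M * n)) (i k : ℕ) : E →ₗ[K] E :=
  if h : i < M ∧ k < n then g.X ⟨i * n + k, idx_lt h.1 h.2⟩ else 0

theorem fpm_of {M n : ℕ} (g : Gm K E (M * n)) (hcl : ∀ C ∈ ofphp M n, g.Cl C) : FPM g (xop g) M n := by
  have hop : ∀ i k, xop g i k ∈ g.Op 1 := by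
    intro i k
    unfold xop
    split_ifs
    · exact g.Op_one_X _
    · exact Submodule.zero_mem _
  have hneg : ∀ a b : ℕ, [((a, false) : Lit), (b, false)] ∈ ofphp M n → ∀ (ha : a < M * n) (hb : b < M * n),
      g.X ⟨a, ha⟩ * g.X ⟨b, hb⟩ = 0 := by
    intro a b hC ha hb
    rcases hcl _ hC with ⟨i, i', h1, h2⟩ | ⟨l, -, h1, -⟩
    · simp only [List.cons.injEq, Prod.mk.injEq, and_true] at h1
      have e1 : (⟨a, ha⟩ : Fin (M * n)) = i := Fin.ext h1.1
      have e2 : (⟨b, hb⟩ : Fin (M * n)) = i' := Fin.ext h1.2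
      rw [e1, e2]
      exact LinearMap.ext h2
    · exfalso
      cases l with
      | nil => simp at h1
      | cons c l => simp at h1
  have hcomm : ∀ i k i' k', xop g i k * xop g i' k' = xop g i' k' * xop g i k := fun i k i' k' => g.Op_comm (hop _ _) (hop _ _)
  refine ⟨hop, ?_, ?_, ?_, ?_, ?_⟩
  · intro i k
    unfold xop
    split_ifs
    · exact LinearMap.ext fun m => g.idem _ m
    · simp
  · intro i k hk
    unfold xop
    rw [dif_neg (by omega)]
  · have key : ∀ i < M, ∀ k k', k < k' → xop g i k * xop g i k' = 0 := by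
      intro i hi k k' hkk
      by_cases hk : k' < n
      · unfold xop
        rw [dif_pos ⟨hi, by omega⟩, dif_pos ⟨hi, hk⟩]
        refine hneg _ _ ?_ _ _
        unfold ofphp
        refine List.mem_append_right _ (List.mem_append_right _ (List.mem_flatMap.2 ⟨i, List.mem_range.2 hi,
          List.mem_flatMap.2 ⟨k', List.mem_range.2 hk, List.mem_map.2 ⟨k, List.mem_range.2 hkk, rfl⟩⟩⟩))
      · have : xop g i k' = 0 := by unfold xop; rw [dif_neg (by omega)]
        rw [this, mul_zero]
    intro i hi k k' hne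
    rcases lt_or_gt_of_ne hne with h | h
    · exact key i hi k k' h
    · rw [hcomm]
      exact key i hi k' k h
  · have key : ∀ i i', i < i' → i' < M → ∀ k, xop g i k * xop g i' k = 0 := by
      intro i i' hii hi' k
      by_cases hk : k < n
      · unfold xop
        rw [dif_pos ⟨by omega, hk⟩, dif_pos ⟨hi', hk⟩]
        refine hneg _ _ ?_ _ _
        unfold ofphp php
        refine List.mem_append_left _ (List.mem_append_right _ (List.mem_flatMap.2 ⟨k, List.mem_range.2 hk,
          List.mem_flatMap.2 ⟨i', List.mem_range.2 hi', List.mem_map.2 ⟨i, List.mem_range.2 hii, rfl⟩⟩⟩))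
      · have : xop g i' k = 0 := by unfold xop; rw [dif_neg (by omega)]
        rw [this, mul_zero]
    intro i hi i' hi' k hne
    rcases lt_or_gt_of_ne hne with h | h
    · exact key i i' h hi' k
    · rw [hcomm]
      exact key i' i h hi k
  · intro i hi
    have hC : ((List.range n).map fun j => ((i * n + j, true) : Lit)) ∈ ofphp M n := by
      unfold ofphp php
      exact List.mem_append_left _ (List.mem_append_left _ (List.mem_map.2 ⟨i, List.mem_range.2 hi, rfl⟩))
    rcases hcl _ hC with ⟨a, b, h1, h2⟩ | ⟨l, -, h1, h2⟩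
    · exfalso
      have h3 : (((List.range n).map fun j => ((i * n + j, true) : Lit)).map Prod.snd) = [false, false] := by rw [h1]; rfl
      rw [List.map_map] at h3
      have h4 : ∀ b ∈ (List.range n).map (Prod.snd ∘ fun j => ((i * n + j, true) : Lit)), b = true := by
        intro b hb
        obtain ⟨j, _, rfl⟩ := List.mem_map.1 hb
        rfl
      rw [h3] at h4
      exact absurd (h4 false (by simp)) (by simp)
    · have h3 : l.map Fin.val = (List.range n).map fun j => i * n + j := by
        have := congrArg (List.map Prod.fst) h1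
        rw [List.map_map, List.map_map] at this
        exact this.symm
      have hlen : l.length = n := by
        have := congrArg List.length h3
        simpa using this
      refine LinearMap.ext fun m => ?_
      rw [← h2 m, LinearMap.sum_apply, Finset.sum_range]
      have h5 : (l.map fun i => g.X i m) = List.ofFn fun k : Fin n => xop g i k m := by
        refine List.ext_getElem (by simp [hlen]) fun t ht1 ht2 => ?_
        rw [List.length_map] at ht1
        rw [List.getElem_map, List.getElem_ofFn]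
        have h6 : (l[t]).val = i * n + t := by
          have e1 : (l.map Fin.val)[t]'(by simpa using ht1) = (l[t]).val := by simp
          rw [← e1]
          simp [h3]
        unfold xop
        rw [dif_pos ⟨hi, by omega⟩]
        congr 2
        exact Fin.ext h6
      rw [h5, List.sum_ofFn]

end

/-- Graded modules for the rank principle. -/
theorem rank_gm {p M n : ℕ} [Fact p.Prime] {L A R del : ℕ} (h : HasGm p (M * n) (ofphp M n) L A R del) {q m : ℕ} (hq : 2 ≤ q)
    (hm : m ≤ M) : HasGmW 4 p ((2 * m * n + m * m * (n + 1)) * q) (rankp q m n) L A R del := by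
  obtain ⟨E, h1, h2, h3, g, h4, h5, h6, h7, h8⟩ := h
  have hf := fpm_of g h8
  refine ⟨E, h1, h2, h3, g.subq q (Yr (xop g) m n) (Yr_op hf m n) (Yr_sq hf hm) _, h4, h5, h6, fun a ha => ?_,
    rank_ok hf hq hm le_rfl le_rfl⟩
  exact (Submodule.finrank_mono (g.sub_Op_le _ _ _ a)).trans (h7 a ha)

/-- Graded modules for the inversion principle. -/
theorem inv_gm {p M n : ℕ} [Fact p.Prime] {L A R del : ℕ} (h : HasGm p (M * n) (ofphp M n) L A R del) {q : ℕ} (hq : 2 ≤ q)
    (hn : n < M) : HasGmW 4 p ((2 * M * M + M * M * (M + 1) + (M + 1)) * q) (invp q M) L A R del := by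
  obtain ⟨E, h1, h2, h3, g, h4, h5, h6, h7, h8⟩ := h
  have hf := fpm_of g h8
  refine ⟨E, h1, h2, h3, g.subq q (Yr (xop g) M M) (Yr_op hf M M) (Yr_sq hf le_rfl) _, h4, h5, h6, fun a ha => ?_,
    inv_ok hf hq hn le_rfl⟩
  exact (Submodule.finrank_mono (g.sub_Op_le _ _ _ a)).trans (h7 a ha)

end PPh
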