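import Pool.Agent.H85.PC.Num
import Pool.Agent.H85.PC.Rank

/-!
helper85 (project MP_28250c_PP, corollaries): the lower bounds for the rank principle and the inversion principle from Theorem G (for
`HasGmW`) and the graded modules of block M.
-/

set_option autoImplicit false

namespace PPh

open ACpFrege

/-- The numerics which are common to both principles. -/
theorem num_common {p : ℕ} (hp : p.Prime) {n l : ℕ} (hl : 1 ≤ l) (h1 : ((2 * p + 4) ^ 5) ^ l ≤ n)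
    (h2 : n ≤ ((2 * p + 4) ^ 5) ^ (l + 2)) {c : ℝ}
    (hc : c = 1 / 20 * (Real.log 2 / Real.log (((2 * p + 4) ^ 5 : ℕ) : ℝ)) / 3) {d : ℕ} (hd : Real.log n ^ (d + 1) ≤ (n : ℝ) ^ c) :
    (l : ℝ) ^ (d + 1) ≤ 2 ^ ((1 : ℝ) / 20 * l) ∧ (n : ℝ) ^ c ≤ ((p ^ l : ℕ) : ℝ) ∧
      (2 : ℝ) ^ ((n : ℝ) ^ (c / (d + 1))) ≤ (2 : ℝ) ^ ((2 : ℝ) ^ ((1 : ℝ) / 20 * l / (d + 1))) := by
  set B : ℕ := (2 * p + 4) ^ 5 with hB
  have hB4 : 4 ≤ B := by
    calc 4 ≤ 2 * p + 4 := by omega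
      _ ≤ (2 * p + 4) ^ 5 := Nat.le_self_pow (by norm_num) _
  have hBr : (4 : ℝ) ≤ B := by exact_mod_cast hB4
  have hl2 : 0 < Real.log 2 := Real.log_pos (by norm_num)
  have hlB : 1 ≤ Real.log B := by
    rw [Real.le_log_iff_exp_le (by linarith)]
    linarith [Real.exp_one_lt_d9]
  have hlB0 : 0 < Real.log B := by linarith
  have hn1 : 1 ≤ n := le_trans (Nat.one_le_pow _ _ (by omega)) h1
  have hnr : (1 : ℝ) ≤ n := by exact_mod_cast hn1
  have hnr0 : (0 : ℝ) < n := by linarith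
  have hlr : (1 : ℝ) ≤ l := by exact_mod_cast hl
  have hlog1 : (l : ℝ) * Real.log B ≤ Real.log n := by
    rw [← Real.log_pow]
    exact Real.log_le_log (by positivity) (by exact_mod_cast h1)
  have hlog2 : Real.log n ≤ ((l : ℝ) + 2) * Real.log B := by
    have : Real.log n ≤ Real.log ((B : ℝ) ^ (l + 2)) := Real.log_le_log hnr0 (by exact_mod_cast h2)
    rw [Real.log_pow] at this
    push_cast at this
    exact this
  have hln : (l : ℝ) ≤ Real.log n := by nlinarith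
  have hc0 : 0 < c := by rw [hc]; positivity
  have hnc : (n : ℝ) ^ c ≤ (2 : ℝ) ^ ((1 : ℝ) / 20 * l) := by
    rw [Real.rpow_def_of_pos hnr0, Real.rpow_def_of_pos (by norm_num)]
    refine Real.exp_le_exp.2 ?_
    have e1 : Real.log n * c ≤ ((l : ℝ) + 2) * Real.log B * c := mul_le_mul_of_nonneg_right hlog2 hc0.le
    have e2 : ((l : ℝ) + 2) * Real.log B * c = ((l : ℝ) + 2) / 3 * (1 / 20 * Real.log 2) := by
      rw [hc]
      field_simp
    have e3 : ((l : ℝ) + 2) / 3 * (1 / 20 * Real.log 2) ≤ (l : ℝ) * (1 / 20 * Real.log 2) :=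
      mul_le_mul_of_nonneg_right (by linarith) (by positivity)
    calc Real.log n * c ≤ (l : ℝ) * (1 / 20 * Real.log 2) := by linarith
      _ = Real.log 2 * (1 / 20 * l) := by ring
  refine ⟨?_, ?_, ?_⟩
  · calc (l : ℝ) ^ (d + 1) ≤ Real.log n ^ (d + 1) := pow_le_pow_left₀ (Nat.cast_nonneg _) hln _
      _ ≤ (n : ℝ) ^ c := hd
      _ ≤ _ := hnc
  · calc (n : ℝ) ^ c ≤ (2 : ℝ) ^ ((1 : ℝ) / 20 * l) := hnc
      _ ≤ (2 : ℝ) ^ ((l : ℝ)) := by
          refine Real.rpow_le_rpow_of_exponent_le (by norm_num) ?_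
          nlinarith
      _ = (2 : ℝ) ^ l := Real.rpow_natCast _ _
      _ ≤ (p : ℝ) ^ l := pow_le_pow_left₀ (by norm_num) (by exact_mod_cast hp.two_le) l
      _ = ((p ^ l : ℕ) : ℝ) := by push_cast; rfl
  · refine Real.rpow_le_rpow_of_exponent_le (by norm_num) ?_
    have hd0 : (0 : ℝ) < (d : ℝ) + 1 := by positivity
    have e1 : (n : ℝ) ^ (c / (d + 1)) = ((n : ℝ) ^ c) ^ (1 / ((d : ℝ) + 1)) := by
      rw [← Real.rpow_mul hnr0.le]
      congr 1
      ring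
    have e2 : (2 : ℝ) ^ ((1 : ℝ) / 20 * l / (d + 1)) = ((2 : ℝ) ^ ((1 : ℝ) / 20 * l)) ^ (1 / ((d : ℝ) + 1)) := by
      rw [← Real.rpow_mul (by norm_num)]
      congr 1
      ring
    rw [e1, e2]
    exact Real.rpow_le_rpow (by positivity) hnc (by positivity)

/-- The rank principle. -/
theorem rank_of (hG : ∀ (p : ℕ) [Fact p.Prime], OutGW p 4) (hM : ∀ (p : ℕ) [Fact p.Prime], OutM p) : StatementRank := by
  intro p hp
  haveI : Fact p.Prime := ⟨hp⟩
  set B : ℕ := (2 * p + 4) ^ 5 with hB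
  have hB1 : 1 < B := Nat.one_lt_pow (by norm_num) (by omega)
  have hBr : (1 : ℝ) < B := by exact_mod_cast hB1
  have hlB0 : 0 < Real.log B := Real.log_pos hBr
  have hl2 : 0 < Real.log 2 := Real.log_pos (by norm_num)
  refine ⟨1 / 20 * (Real.log 2 / Real.log ((B : ℕ) : ℝ)) / 3, by positivity, fun S hS => ?_⟩
  obtain ⟨l0, hl0⟩ := gen_of (hG p) S hS
  obtain ⟨l1, hl1⟩ := hM p
  refine ⟨B ^ (l0 + l1 + 1), fun n hn d hd m q _ hnm hq π hπ => ?_⟩
  have hn1 : 1 ≤ n := le_trans (Nat.one_le_pow _ _ (by omega)) hn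
  set l : ℕ := Nat.log B n with hl
  have h1 : B ^ l ≤ n := Nat.pow_log_le_self B (by omega)
  have h2 : n < B ^ (l + 1) := Nat.lt_pow_succ_log_self hB1 n
  have hl1' : l0 + l1 + 1 ≤ l := (Nat.le_log_iff_pow_le hB1 (by omega)).2 hn
  have h3 : n ≤ B ^ (l + 2) := h2.le.trans (Nat.pow_le_pow_right (by omega) (by omega))
  obtain ⟨e1, e2, e3⟩ := num_common hp (by omega) h1 h3 rfl hd
  have hmn : m ≤ n + p ^ l := by
    have : (m : ℝ) ≤ ((n + p ^ l : ℕ) : ℝ) := by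
      rw [Nat.cast_add]
      linarith
    exact_mod_cast this
  refine e3.trans (hl0 l (by omega) d e1 _ (fun L hL => ⟨_, rank_gm (hl1 l (by omega) n L ?_ hL) hq hmn⟩) π hπ)
  rw [pow_mul]
  exact h1

/-- The inversion principle. -/
theorem inv_of (hG : ∀ (p : ℕ) [Fact p.Prime], OutGW p 4) (hM : ∀ (p : ℕ) [Fact p.Prime], OutM p) : StatementInv := by
  intro p hp
  haveI : Fact p.Prime := ⟨hp⟩
  set B : ℕ := (2 * p + 4) ^ 5 with hB
  have hB1 : 1 < B := Nat.one_lt_pow (by norm_num) (by omega)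
  have hB4 : 4 ≤ B := by
    calc 4 ≤ 2 * p + 4 := by omega
      _ ≤ (2 * p + 4) ^ 5 := Nat.le_self_pow (by norm_num) _
  have hBr : (1 : ℝ) < B := by exact_mod_cast hB1
  have hlB0 : 0 < Real.log B := Real.log_pos hBr
  have hl2 : 0 < Real.log 2 := Real.log_pos (by norm_num)
  refine ⟨1 / 20 * (Real.log 2 / Real.log ((B : ℕ) : ℝ)) / 3, by positivity, fun S hS => ?_⟩
  obtain ⟨l0, hl0⟩ := gen_of (hG p) S hS
  obtain ⟨l1, hl1⟩ := hM p
  refine ⟨2 * B ^ (l0 + l1 + 1), fun n hn d hd q hq π hπ => ?_⟩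
  have hn2 : B ^ (l0 + l1 + 1) ≤ n / 2 := by omega
  have hn1 : 1 ≤ n / 2 := le_trans (Nat.one_le_pow _ _ (by omega)) hn2
  set l : ℕ := Nat.log B (n / 2) with hl
  have h1 : B ^ l ≤ n / 2 := Nat.pow_log_le_self B (by omega)
  have h2 : n / 2 < B ^ (l + 1) := Nat.lt_pow_succ_log_self hB1 _
  have hl1' : l0 + l1 + 1 ≤ l := (Nat.le_log_iff_pow_le hB1 (by omega)).2 hn2
  have h3 : n ≤ B ^ (l + 2) := by
    have e : B ^ (l + 2) = B ^ (l + 1) * B := pow_succ _ _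
    have e' : B ^ (l + 1) * 4 ≤ B ^ (l + 1) * B := Nat.mul_le_mul_left _ hB4
    omega
  obtain ⟨e1, -, e3⟩ := num_common hp (by omega) (h1.trans (Nat.div_le_self _ _)) h3 rfl hd
  have hpl : p ^ l ≤ B ^ l := Nat.pow_le_pow_left (by
    calc p ≤ 2 * p + 4 := by omega
      _ ≤ (2 * p + 4) ^ 5 := Nat.le_self_pow (by norm_num) _) l
  have hpl0 : 1 ≤ p ^ l := Nat.one_le_pow _ _ hp.pos
  obtain ⟨k, hk⟩ : ∃ k, n = k + p ^ l := ⟨n - p ^ l, by omega⟩
  refine e3.trans (hl0 l (by omega) d e1 _ (fun L hL => ?_) π hπ)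
  have h5 := hl1 l (by omega) k L (by rw [pow_mul, ← hB]; omega) hL
  rw [← hk] at h5
  exact ⟨_, inv_gm h5 hq (by omega)⟩

end PPh
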