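import Pool.Agent.H85.PC.Sub

/-!
helper85 (project MP_28250c_PP, corollaries): variables over `Z/q` which take the values 0 and 1 only; clauses which hold.
-/

set_option autoImplicit false
open Finset

namespace PPh

open ACpFrege Module

section

variable {K : Type} [Field K] {E : Type} [AddCommGroup E] [Module K E] {n : ℕ}

theorem vop_Op (g : Gm K E n) {Y : E →ₗ[K] E} (hY : Y ∈ g.Op 1) (c : ℕ) : vop g.J Y c ∈ g.Op 1 := by
  unfold vop
  split_ifs
  · exact hY
  · exact Submodule.sub_mem _ g.Op_one_J hY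
  · exact Submodule.zero_mem _

theorem up_vop (g : Gm K E n) {Y : E →ₗ[K] E} (hY : Y ∈ g.Op 1) (c : ℕ) :
    ((vop (g.up g.J g.Op_one_J) (g.up Y hY) c : g.alg) : E →ₗ[K] E) = vop g.J Y c := by
  unfold vop
  split_ifs <;> rfl

theorem vop_idem_end (g : Gm K E n) {Y : E →ₗ[K] E} (hY : Y ∈ g.Op 1) (hi : Y * Y = g.J * Y) (c : ℕ) :
    vop g.J Y c * vop g.J Y c = g.J * vop g.J Y c := by
  have h : g.up Y hY * g.up Y hY = g.up g.J g.Op_one_J * g.up Y hY := Subtype.ext hi
  rw [← up_vop g hY c]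
  exact congrArg Subtype.val (vop_idem h c)

theorem vop_ne_end (g : Gm K E n) {Y : E →ₗ[K] E} (hY : Y ∈ g.Op 1) (hi : Y * Y = g.J * Y) {c c' : ℕ} (hc : c ≠ c') :
    vop g.J Y c * vop g.J Y c' = 0 := by
  have h : g.up Y hY * g.up Y hY = g.up g.J g.Op_one_J * g.up Y hY := Subtype.ext hi
  rw [← up_vop g hY c, ← up_vop g hY c']
  exact congrArg Subtype.val (vop_ne h hc)

theorem step_end (g : Gm K E n) {s a b s' : E →ₗ[K] E} (hso : s ∈ g.Op 1) (hao : a ∈ g.Op 1) (hbo : b ∈ g.Op 1)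
    (hso' : s' ∈ g.Op 1) (hok : StepOK s a b s') (hs : s * s = g.J * s) (ha : a * a = g.J * a) {q u x y w : ℕ} (hq : 2 ≤ q)
    (hu : u < q) (hw : w ≠ (u + x * y) % q) :
    vop g.J s u * (vop g.J a x * (vop g.J b y * vop g.J s' w)) = 0 := by
  have hs1 : g.up s hso * g.up s hso = g.up g.J g.Op_one_J * g.up s hso := Subtype.ext hs
  have ha1 : g.up a hao * g.up a hao = g.up g.J g.Op_one_J * g.up a hao := Subtype.ext ha
  have hok1 : StepOK (g.up s hso) (g.up a hao) (g.up b hbo) (g.up s' hso') := by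
    rcases hok with ⟨h1, h2⟩ | ⟨h1, h2, h3⟩
    · exact Or.inl ⟨Subtype.ext h1, Subtype.ext h2⟩
    · exact Or.inr ⟨Subtype.ext h1, Subtype.ext h2, Subtype.ext h3⟩
  rw [← up_vop g hso u, ← up_vop g hao x, ← up_vop g hbo y, ← up_vop g hso' w]
  exact congrArg Subtype.val (step_ring hok1 hs1 ha1 hq hu hw)

/-- The graded module in which the variable number `ν` over `Z/q` takes the values 0 and 1 according to the operator `Y ν`. -/
noncomputable def Gm.subq (g : Gm K E n) (q : ℕ) (Y : ℕ → E →ₗ[K] E) (hY : ∀ ν, Y ν ∈ g.Op 1) (hi : ∀ ν, Y ν * Y ν = g.J * Y ν)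
    (n' : ℕ) : Gm K E n' :=
  g.sub (fun v : Fin n' => vop g.J (Y (v.1 / q)) (v.1 % q)) (fun v => vop_Op g (hY _) _) fun v => vop_idem_end g (hY _) (hi _) _

variable (g : Gm K E n) (q : ℕ) (hq : 2 ≤ q) (Y : ℕ → E →ₗ[K] E) (hY : ∀ ν, Y ν ∈ g.Op 1) (hi : ∀ ν, Y ν * Y ν = g.J * Y ν) (V : ℕ)

theorem idx_lt {q ν V c : ℕ} (h : ν < V) (hc : c < q) : ν * q + c < V * q := by
  have : (ν + 1) * q ≤ V * q := Nat.mul_le_mul_right _ h
  rw [Nat.add_mul, one_mul] at this
  omega

include hq in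
theorem subq_X {ν c : ℕ} (h : ν < V) (hc : c < q) :
    (g.subq q Y hY hi (V * q)).X ⟨ν * q + c, idx_lt h hc⟩ = vop g.J (Y ν) c := by
  have h1 : (ν * q + c) / q = ν := by
    rw [Nat.add_div_of_dvd_right (Dvd.intro_left ν rfl), Nat.mul_div_cancel _ (by omega), Nat.div_eq_of_lt hc, add_zero]
  have h2 : (ν * q + c) % q = c := by
    rw [Nat.add_mod, Nat.mul_mod_left, zero_add, Nat.mod_mod, Nat.mod_eq_of_lt hc]
  show vop g.J (Y ((ν * q + c) / q)) ((ν * q + c) % q) = _
  rw [h1, h2]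

include hq in
theorem unit_ok {ν c : ℕ} (h : ν < V) (hc : c < q) (hv : vop g.J (Y ν) c = g.J) :
    (g.subq q Y hY hi (V * q)).Clw 4 [isv q ν c] := by
  refine Or.inr ⟨[⟨ν * q + c, idx_lt h hc⟩], by simp, by simp [isv], fun m => ?_⟩
  rw [List.map_singleton, List.sum_singleton, subq_X g q hq Y hY hi V h hc, hv]
  rfl

include hq in
theorem exone_ok {ν : ℕ} (h : ν < V) : ∀ C ∈ exone q ν, (g.subq q Y hY hi (V * q)).Clw 4 C := by
  intro C hC
  unfold exone at hC
  rcases List.mem_append.1 hC with hC | hC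
  · rw [List.mem_singleton] at hC
    subst hC
    refine Or.inr ⟨List.ofFn fun c : Fin q => ⟨ν * q + c, idx_lt h c.2⟩, ?_, ?_, fun m => ?_⟩
    · rw [List.nodup_ofFn]
      intro c c' hcc
      have : ν * q + (c : ℕ) = ν * q + c' := congrArg Fin.val hcc
      exact Fin.ext (by omega)
    · rw [List.map_ofFn]
      have : List.range q = List.ofFn fun c : Fin q => (c : ℕ) := by
        rw [List.ofFn_eq_map]
        simp
      rw [this, List.map_ofFn]
      rfl
    · rw [List.map_ofFn, List.sum_ofFn]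
      have : ∀ c : Fin q, ((fun i => ((g.subq q Y hY hi (V * q)).X i) m) ∘ fun c : Fin q => (⟨ν * q + c, idx_lt h c.2⟩ : Fin (V * q))) c =
          (vop g.J (Y ν) c) m := by
        intro c
        show ((g.subq q Y hY hi (V * q)).X ⟨ν * q + c, idx_lt h c.2⟩) m = _
        rw [subq_X g q hq Y hY hi V h c.2]
      rw [Finset.sum_congr rfl fun c _ => this c]
      obtain ⟨r, rfl⟩ : ∃ r, q = r + 2 := ⟨q - 2, by omega⟩
      rw [Fin.sum_univ_succ, Fin.sum_univ_succ]
      have h0 : ∀ c : Fin r, (vop g.J (Y ν) ((c.succ.succ : Fin (r + 2)) : ℕ)) m = 0 := by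
        intro c
        have : ((c.succ.succ : Fin (r + 2)) : ℕ) = c + 2 := by simp
        rw [this]
        unfold vop
        rw [if_neg (by omega), if_neg (by omega)]
        rfl
      rw [Finset.sum_eq_zero fun c _ => h0 c]
      simp [vop, Gm.subq, Gm.sub]
  · rw [List.mem_flatMap] at hC
    obtain ⟨c', hc', hC⟩ := hC
    rw [List.mem_map] at hC
    obtain ⟨c, hc, rfl⟩ := hC
    rw [List.mem_range] at hc' hc
    refine Or.inl ⟨[(⟨ν * q + c, idx_lt h (by omega)⟩, false), (⟨ν * q + c', idx_lt h hc'⟩, false)], by simp, by simp [nov], fun m => ?_⟩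
    have h1 := vop_ne_end g (hY ν) (hi ν) (show c ≠ c' by omega)
    have h2 := LinearMap.congr_fun h1 m
    simp only [Gm.nprod, List.map_cons, List.map_nil, List.prod_cons, List.prod_nil, Bool.false_eq_true, if_false, mul_one]
    rw [subq_X g q hq Y hY hi V h (by omega), subq_X g q hq Y hY hi V h hc']
    exact h2

include hq in
theorem stepq_ok {s a b s' : ℕ} (hs : s < V) (ha : a < V) (hb : b < V) (hs' : s' < V) (hok : StepOK (Y s) (Y a) (Y b) (Y s')) :
    ∀ C ∈ stepq q s a b s', (g.subq q Y hY hi (V * q)).Clw 4 C := by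
  intro C hC
  unfold stepq at hC
  simp only [List.mem_flatMap, List.mem_map, List.mem_filter, List.mem_range, decide_eq_true_eq] at hC
  obtain ⟨u, hu, x, hx, y, hy, w, ⟨hw, hne⟩, rfl⟩ := hC
  refine Or.inl ⟨[(⟨s * q + u, idx_lt hs hu⟩, false), (⟨a * q + x, idx_lt ha hx⟩, false), (⟨b * q + y, idx_lt hb hy⟩, false),
    (⟨s' * q + w, idx_lt hs' hw⟩, false)], by simp, by simp [nov], fun m => ?_⟩
  have h1 := step_end g (hY s) (hY a) (hY b) (hY s') hok (hi s) (hi a) hq hu hne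
  have h2 := LinearMap.congr_fun h1 m
  simp only [Gm.nprod, List.map_cons, List.map_nil, List.prod_cons, List.prod_nil, Bool.false_eq_true, if_false, mul_one]
  rw [subq_X g q hq Y hY hi V hs hu, subq_X g q hq Y hY hi V ha hx, subq_X g q hq Y hY hi V hb hy,
    subq_X g q hq Y hY hi V hs' hw]
  exact h2

include hq in
theorem dotq_ok {r v : ℕ} {s a b : ℕ → ℕ} (hs : ∀ k ≤ r, s k < V) (ha : ∀ k < r, a k < V) (hb : ∀ k < r, b k < V)
    (hv : v < q) (h0 : Y (s 0) = 0) (hr : vop g.J (Y (s r)) v = g.J)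
    (hok : ∀ k < r, StepOK (Y (s k)) (Y (a k)) (Y (b k)) (Y (s (k + 1)))) :
    ∀ C ∈ dotq q r s a b v, (g.subq q Y hY hi (V * q)).Clw 4 C := by
  intro C hC
  unfold dotq at hC
  rw [List.mem_append, List.mem_flatMap] at hC
  rcases hC with hC | ⟨k, hk, hC⟩
  · rcases List.mem_cons.1 hC with rfl | hC
    · exact unit_ok g q hq Y hY hi V (hs 0 (Nat.zero_le _)) (by omega) (by simp [vop, h0])
    · rw [List.mem_singleton] at hC
      subst hC
      exact unit_ok g q hq Y hY hi V (hs r le_rfl) hv hr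
  · rw [List.mem_range] at hk
    exact stepq_ok g q hq Y hY hi V (hs k hk.le) (ha k hk) (hb k hk) (hs (k + 1) hk) (hok k hk) C hC

end

end PPh
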