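import Pool.Agent.H94.PP.Final
import Pool.Agent.H85.PC.Final

/-!
helper85 (project MP_28250c_PP, corollaries): the unconditional lower bounds for the rank principle and the inversion principle.
-/

set_option autoImplicit false

namespace PPh

theorem mainRank : StatementRank := rank_of (fun p _ => Sd.outGW p 4) (fun p _ => outM_all p)

theorem mainInv : StatementInv := inv_of (fun p _ => Sd.outGW p 4) (fun p _ => outM_all p)

end PPh
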