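import Pool.Agent.H85.PC.Out
import Pool.Agent.H85.PC.Unsat
import Pool.Agent.H85.AF.Complete

/-!
helper85: parked hand-in for MP_28250c_lc (matrix identities). The rank principle and `A B = 1 → B A = 1` over every ring `Z/q`, also
for `q = p`, are exponentially hard for bounded-depth Frege systems with MOD_p connectives. Definitions of the proof systems:
Pool/Agent/H65/AF/Defs.lean, of the formulas `rankp` and `invp`: Pool/Agent/H85/PC/Defs.lean.
-/

set_option autoImplicit false

namespace PPh.ParkMatrixIdentities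

open ACpFrege PPh

/-- (1) For every prime `p` there is `c > 0` such that for every finite set `S` of sound schematic rules, all large `n`, all depths `d`
with `(log n)^(d+1) ≤ n^c`, all `m` with `n < m ≤ n + n^c` and all `q ≥ 2`, every refutation with lines of depth at most `d` of the
statement `A B = 1` for an `m × n` matrix `A` and an `n × m` matrix `B` over `Z/q` in the Frege system `S` with MOD_p connectives has
size at least `2^(n^(c/(d+1)))`.
(2) The same for the statement: `A B = 1` for `n × n` matrices over `Z/q`, but the last diagonal entry of `B A` is 0.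
(3) The formulas are unsatisfiable, and for every `p` there is a finite set of sound schematic rules in which every
unsatisfiable CNF has a refutation of depth at most 2. -/
theorem result :
    (∀ p : ℕ, p.Prime → ∃ c > (0 : ℝ), ∀ S : List (Rule p), (∀ R ∈ S, R.Sound) → ∃ n₀ : ℕ, ∀ n ≥ n₀, ∀ d : ℕ,
      Real.log n ^ (d + 1) ≤ (n : ℝ) ^ c → ∀ m q : ℕ, n < m → (m : ℝ) ≤ n + (n : ℝ) ^ c → 2 ≤ q →
        ∀ π : List (Fm p), Refutes S d (rankp q m n) π → (2 : ℝ) ^ ((n : ℝ) ^ (c / (d + 1))) ≤ psize π) ∧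
    (∀ p : ℕ, p.Prime → ∃ c > (0 : ℝ), ∀ S : List (Rule p), (∀ R ∈ S, R.Sound) → ∃ n₀ : ℕ, ∀ n ≥ n₀, ∀ d : ℕ,
      Real.log n ^ (d + 1) ≤ (n : ℝ) ^ c → ∀ q : ℕ, 2 ≤ q →
        ∀ π : List (Fm p), Refutes S d (invp q n) π → (2 : ℝ) ^ ((n : ℝ) ^ (c / (d + 1))) ≤ psize π) ∧
    (∀ q m n : ℕ, 2 ≤ q → n < m → (rankp q m n).Unsat) ∧ (∀ q n : ℕ, 2 ≤ q → 1 ≤ n → (invp q n).Unsat) ∧
    ∀ p : ℕ, ∃ S : List (Rule p), (∀ R ∈ S, R.Sound) ∧ ∀ F : CNF, F.Unsat → ∃ π : List (Fm p), Refutes S 2 F π :=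
  ⟨mainRank, mainInv, fun _ _ _ hq h => rankp_unsat hq h, fun _ _ hq h => invp_unsat hq h,
    fun p => ⟨rules3 p, rules3_sound p, fun _ hF => complete3 p hF⟩⟩

end PPh.ParkMatrixIdentities
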