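import Pool.Agent.H85.PC.Defs
import Pool.Agent.H56.PP.GmAct

/-!
helper85 (project MP_28250c_PP, corollaries): replacing the operators of the variables of a graded module by operators of degree 1.
-/

set_option autoImplicit false
open Finset

namespace PPh

open ACpFrege Module

section

variable {K : Type} [Field K] {E : Type} [AddCommGroup E] [Module K E] {n : ℕ}

theorem Gm.Op_comm (g : Gm K E n) {a b : ℕ} {P Q : E →ₗ[K] E} (hP : P ∈ g.Op a) (hQ : Q ∈ g.Op b) : P * Q = Q * P := by
  obtain ⟨F, hF, rfl⟩ := g.Op_eq hP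
  obtain ⟨G, hG, rfl⟩ := g.Op_eq hQ
  exact g.hact_comm hF hG

theorem Gm.Op_mul (g : Gm K E n) {a b : ℕ} {P Q : E →ₗ[K] E} (hP : P ∈ g.Op a) (hQ : Q ∈ g.Op b) : P * Q ∈ g.Op (a + b) := by
  obtain ⟨F, hF, rfl⟩ := g.Op_eq hP
  obtain ⟨G, hG, rfl⟩ := g.Op_eq hQ
  rw [← g.hact_mul hF hG]
  exact g.hact_Op _ _

theorem Gm.Op_one_J (g : Gm K E n) : g.J ∈ g.Op 1 := by
  have := g.Op_pow 1
  rwa [pow_one] at this

theorem Gm.Op_one_X (g : Gm K E n) (i : Fin n) : g.X i ∈ g.Op 1 := by
  have h : g.J ^ 0 ∈ g.Op 0 := g.Op_pow 0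
  have h2 := g.Op_X h i
  rwa [pow_zero, mul_one, zero_add] at h2

/-- The graded module with other operators for the variables. -/
def Gm.sub (g : Gm K E n) {n' : ℕ} (Y : Fin n' → E →ₗ[K] E) (hY : ∀ v, Y v ∈ g.Op 1) (hi : ∀ v, Y v * Y v = g.J * Y v) :
    Gm K E n' where
  J := g.J
  X := Y
  M := g.M
  mapJ := g.mapJ
  mapX := fun v j m hm => g.Op_map (hY v) hm
  commJ := fun v m => by
    have := g.Op_comm g.Op_one_J (hY v)
    exact LinearMap.congr_fun this m
  comm := fun v v' m => by
    have := g.Op_comm (hY v) (hY v')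
    exact LinearMap.congr_fun this m
  idem := fun v m => LinearMap.congr_fun (hi v) m

theorem Gm.sub_list (g : Gm K E n) {n' : ℕ} (Y : Fin n' → E →ₗ[K] E) (hY : ∀ v, Y v ∈ g.Op 1) (l : List (Fin n')) :
    (l.map Y).prod ∈ g.Op l.length := by
  induction l with
  | nil =>
    have : g.J ^ 0 ∈ g.Op 0 := g.Op_pow 0
    simpa using this
  | cons v l ih =>
    rw [List.map_cons, List.prod_cons, List.length_cons, add_comm]
    exact g.Op_mul (hY v) ih

theorem Gm.sub_Op_le (g : Gm K E n) {n' : ℕ} (Y : Fin n' → E →ₗ[K] E) (hY : ∀ v, Y v ∈ g.Op 1)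
    (hi : ∀ v, Y v * Y v = g.J * Y v) (a : ℕ) : (g.sub Y hY hi).Op a ≤ g.Op a := by
  refine Submodule.span_le.2 ?_
  rintro P ⟨S, hS, rfl⟩
  have h1 : (g.sub Y hY hi).XS S ∈ g.Op S.card := by
    have := g.sub_list Y hY (S.sort (· ≤ ·))
    rwa [Finset.length_sort] at this
  have h2 := g.Op_mul (g.Op_pow (a - S.card)) h1
  rwa [Nat.sub_add_cancel hS] at h2

/-- The commutative algebra generated by the operators. -/
def Gm.alg (g : Gm K E n) : Subalgebra K (E →ₗ[K] E) := Algebra.adjoin K {P | ∃ a, P ∈ g.Op a}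

noncomputable instance (g : Gm K E n) : CommRing g.alg :=
  Algebra.adjoinCommRingOfComm K fun P hP Q hQ => by
    obtain ⟨a, ha⟩ := hP
    obtain ⟨b, hb⟩ := hQ
    exact g.Op_comm ha hb

/-- An operator of degree `a` as an element of the algebra. -/
def Gm.up (g : Gm K E n) (P : E →ₗ[K] E) {a : ℕ} (hP : P ∈ g.Op a) : g.alg := ⟨P, Algebra.subset_adjoin ⟨a, hP⟩⟩

end

/-- The operator which says that a 0/1-valued variable `Y` has the value `c`. -/
def vop {R : Type} [Ring R] (J Y : R) (c : ℕ) : R := if c = 1 then Y else if c = 0 then J - Y else 0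

/-- One step of a sum of products. -/
def StepOK {R : Type} [Ring R] (s a b s' : R) : Prop := (a * b = 0 ∧ s' = s) ∨ (a = b ∧ s * a = 0 ∧ s' = s + a)

section ring

variable {R : Type} [CommRing R]

theorem vop_idem {J Y : R} (h : Y * Y = J * Y) (c : ℕ) : vop J Y c * vop J Y c = J * vop J Y c := by
  unfold vop
  split_ifs
  · exact h
  · linear_combination h
  · ring

theorem vop_ne {J Y : R} (h : Y * Y = J * Y) {c c' : ℕ} (hc : c ≠ c') : vop J Y c * vop J Y c' = 0 := by
  unfold vop
  split_ifs with h1 h2 h3 h4 h5 h6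
  · exact absurd (h1.trans h2.symm) hc
  · linear_combination -h
  · ring
  · linear_combination -h
  · exact absurd (h4.trans h6.symm) hc
  all_goals ring


theorem step_ring {J s a b s' : R} (hok : StepOK s a b s') (hs : s * s = J * s) (ha : a * a = J * a) {q u x y w : ℕ} (hq : 2 ≤ q)
    (hu : u < q) (hw : w ≠ (u + x * y) % q) : vop J s u * (vop J a x * (vop J b y * vop J s' w)) = 0 := by
  have hq1 : (1 : ℕ) % q = 1 := Nat.mod_eq_of_lt (by omega)
  unfold vop
  rcases hok with ⟨h1, rfl⟩ | ⟨rfl, h2, rfl⟩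
  · split_ifs with hu1 hx1 hy1 hw1 hw0 hy0 hw1 hw0 hx0 hy1 hw1 hw0 hy0 hw1 hw0 hu0 hx1 hy1 hw1 hw0 hy0 hw1 hw0 hx0 hy1 hw1 hw0 hy0 hw1 hw0
    all_goals first
      | linear_combination (0 : R) * h1
      | linear_combination s' * s' * h1
      | linear_combination s' * (J - s') * h1
      | linear_combination (J - s') * s' * h1
      | linear_combination (J - s') * (J - s') * h1
      | linear_combination (-(a * (J - b))) * hs
      | linear_combination (-((J - a) * b)) * hs
      | linear_combination (-((J - a) * (J - b))) * hs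
      | (exfalso; subst_vars; simp [hq1] at hw)
  · split_ifs with hu1 hx1 hy1 hw1 hw0 hy0 hw1 hw0 hx0 hy1 hw1 hw0 hy0 hw1 hw0 hu0 hx1 hy1 hw1 hw0 hy0 hw1 hw0 hx0 hy1 hw1 hw0 hy0 hw1 hw0
    all_goals first
      | linear_combination (0 : R) * h2
      | linear_combination (a * (s + a)) * h2
      | linear_combination (a * (J - (s + a))) * h2
      | linear_combination ((J - a) * (s + a)) * h2
      | linear_combination ((J - a) * (J - (s + a))) * h2
      | linear_combination (-(J - a) ^ 2) * hs - (J - a) ^ 2 * h2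
      | linear_combination (-(J - s) * a) * ha - (J - s) * a * h2
      | linear_combination (-(J - s) * (s + a)) * ha
      | linear_combination (-(J - s) * (J - (s + a))) * ha
      | linear_combination (-(J - a) ^ 2) * hs + (-(J - a) * (J - s)) * ha
      | (exfalso; subst_vars; simp [hq1] at hw)

end ring

end PPh
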